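import Pool.Agent.Helper7.Ric.MOD

/-!
MP_092777_ag, modules GREQ, HT, FREE.
-/

set_option autoImplicit false

open scoped ContDiff Manifold Topology MatrixGroups
open Complex

noncomputable section

namespace RicP

theorem greq_jj_one (τ : ℂ) : jj 1 τ = 1 := by
  simp [jj]

theorem greq_mob_one (τ : ℂ) : mob 1 τ = τ := by
  simp [mob]

theorem greq_mul (γ δ : SL(2, ℤ)) :
    (γ * δ) 0 0 = γ 0 0 * δ 0 0 + γ 0 1 * δ 1 0 ∧ (γ * δ) 0 1 = γ 0 0 * δ 0 1 + γ 0 1 * δ 1 1 ∧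
    (γ * δ) 1 0 = γ 1 0 * δ 0 0 + γ 1 1 * δ 1 0 ∧
    (γ * δ) 1 1 = γ 1 0 * δ 0 1 + γ 1 1 * δ 1 1 := by
  refine ⟨?_, ?_, ?_, ?_⟩ <;>
    simp [Matrix.SpecialLinearGroup.coe_mul, Matrix.mul_apply, Fin.sum_univ_two]

theorem greq_inv (γ : SL(2, ℤ)) :
    γ⁻¹ 0 0 = γ 1 1 ∧ γ⁻¹ 0 1 = -γ 0 1 ∧ γ⁻¹ 1 0 = -γ 1 0 ∧ γ⁻¹ 1 1 = γ 0 0 := by
  refine ⟨?_, ?_, ?_, ?_⟩ <;>
    simp [Matrix.SpecialLinearGroup.coe_inv, Matrix.adjugate_fin_two]

/-- numerator -/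
theorem greq_num (γ : SL(2, ℤ)) {τ : ℂ} (hτ : 0 < τ.im) :
    mob γ τ * jj γ τ = ((γ 0 0 : ℤ) : ℂ) * τ + ((γ 0 1 : ℤ) : ℂ) := by
  have hj := mod_jj_ne γ hτ
  unfold mob
  exact div_mul_cancel₀ _ hj

theorem greq_jj_mul (γ δ : SL(2, ℤ)) {τ : ℂ} (hτ : 0 < τ.im) :
    jj (γ * δ) τ = jj γ (mob δ τ) * jj δ τ := by
  have h1 := greq_num δ hτ
  obtain ⟨-, -, h4, h5⟩ := greq_mul γ δ
  have e1 : jj (γ * δ) τ = (((γ 1 0 * δ 0 0 + γ 1 1 * δ 1 0 : ℤ)) : ℂ) * τ +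
      ((γ 1 0 * δ 0 1 + γ 1 1 * δ 1 1 : ℤ) : ℂ) := by
    unfold jj; rw [h4, h5]
  have e2 : jj γ (mob δ τ) = ((γ 1 0 : ℤ) : ℂ) * mob δ τ + ((γ 1 1 : ℤ) : ℂ) := rfl
  have e3 : jj δ τ = ((δ 1 0 : ℤ) : ℂ) * τ + ((δ 1 1 : ℤ) : ℂ) := rfl
  rw [e1, e2, add_mul, mul_assoc, h1, e3]
  push_cast
  ring

theorem greq_mob_mul (γ δ : SL(2, ℤ)) {τ : ℂ} (hτ : 0 < τ.im) :
    mob (γ * δ) τ = mob γ (mob δ τ) := by
  have hm := mod_mob_im δ hτ
  have hj := mod_jj_ne (γ * δ) hτ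
  have h1 := greq_num (γ * δ) hτ
  have h2 := greq_num γ hm
  have h3 := greq_num δ hτ
  obtain ⟨h4, h5, -, -⟩ := greq_mul γ δ
  have e3 : jj δ τ = ((δ 1 0 : ℤ) : ℂ) * τ + ((δ 1 1 : ℤ) : ℂ) := rfl
  refine mul_right_cancel₀ hj ?_
  rw [h1]
  rw [greq_jj_mul γ δ hτ, ← mul_assoc, h2, add_mul, mul_assoc, h3, e3, h4, h5]
  push_cast
  ring

theorem greq_inv_mob (γ : SL(2, ℤ)) {τ : ℂ} (hτ : 0 < τ.im) : mob γ⁻¹ (mob γ τ) = τ := by
  rw [← greq_mob_mul γ⁻¹ γ hτ, inv_mul_cancel, greq_mob_one]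

theorem greq_inv_jj (γ : SL(2, ℤ)) {τ : ℂ} (hτ : 0 < τ.im) :
    jj γ⁻¹ (mob γ τ) * jj γ τ = 1 := by
  rw [← greq_jj_mul γ⁻¹ γ hτ, inv_mul_cancel, greq_jj_one]

theorem st_GREQ : ST_GREQ := by
  intro M N t
  refine ⟨?_, ?_, ?_⟩
  · intro q x
    refine ⟨1, 0, 0, ?_, ?_, ?_⟩
    · rw [map_one, mul_one]
    · rw [greq_mob_one]
    · rw [greq_jj_one]; simp
  · rintro q q' x x' hx ⟨γ, m, n, h1, h2, h3⟩
    have hx' : 0 < x'.1.im := by rw [h2]; exact mod_mob_im γ hx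
    refine ⟨hx', γ⁻¹, -(m * γ 1 1 - n * γ 1 0), -(n * γ 0 0 - m * γ 0 1), ?_, ?_, ?_⟩
    · rw [h1, mul_assoc, ← map_mul, mul_inv_cancel, map_one, mul_one]
    · rw [h2, greq_inv_mob γ hx]
    · have h4 := greq_inv_jj γ hx
      rw [← h2] at h4
      obtain ⟨i1, i2, i3, i4⟩ := greq_inv γ
      -- `τ j' = d τ' - b`
      have h5 : x.1 * jj γ⁻¹ x'.1 = ((γ 1 1 : ℤ) : ℂ) * x'.1 - ((γ 0 1 : ℤ) : ℂ) := by
        have := greq_num γ⁻¹ hx'
        rw [h2, greq_inv_mob γ hx, ← h2, i1, i2] at this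
        rw [this]
        push_cast
        ring
      have h6 : jj γ⁻¹ x'.1 = -((γ 1 0 : ℤ) : ℂ) * x'.1 + ((γ 0 0 : ℤ) : ℂ) := by
        unfold jj
        rw [i3, i4]
        push_cast
        ring
      have h7 : (x.2 - sF M t (zet M q) x.1) * jj γ⁻¹ x'.1
          = (x'.2 - sF M t (zet M q') x'.1) - (m : ℂ) * (x.1 * jj γ⁻¹ x'.1)
            - (n : ℂ) * jj γ⁻¹ x'.1 := by
        have h8 : x.2 - sF M t (zet M q) x.1 = (x'.2 - sF M t (zet M q') x'.1) * jj γ x.1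
            - (m : ℂ) * x.1 - (n : ℂ) := by
          rw [h3]; ring
        rw [h8]
        linear_combination (x'.2 - sF M t (zet M q') x'.1) * h4
      rw [h7, h5, h6]
      push_cast
      ring
  · rintro q q' q'' x x' x'' hx ⟨γ, m, n, h1, h2, h3⟩ ⟨δ, k, l, g1, g2, g3⟩
    have hx' : 0 < x'.1.im := by rw [h2]; exact mod_mob_im γ hx
    refine ⟨δ * γ, m + k * γ 0 0 + l * γ 1 0, n + k * γ 0 1 + l * γ 1 1, ?_, ?_, ?_⟩
    · rw [h1, g1, map_mul, mul_assoc]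
    · rw [g2, h2, greq_mob_mul δ γ hx]
    · have h4 := greq_num γ hx
      rw [greq_jj_mul δ γ hx, ← h2, ← mul_assoc, g3]
      have e3 : jj γ x.1 = ((γ 1 0 : ℤ) : ℂ) * x.1 + ((γ 1 1 : ℤ) : ℂ) := rfl
      have h5 : (x'.2 - sF M t (zet M q') x'.1 + (k : ℂ) * x'.1 + (l : ℂ)) * jj γ x.1
          = (x'.2 - sF M t (zet M q') x'.1) * jj γ x.1 + (k : ℂ) * (x'.1 * jj γ x.1)
            + (l : ℂ) * jj γ x.1 := by ring
      rw [h5, h3, h2, h4, e3]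
      push_cast
      ring

theorem ht_mob (γ : SL(2, ℤ)) (τ : ℂ) :
    (mob γ τ).im = τ.im / ‖jj γ τ‖ ^ 2 := by
  have hd : ((γ 0 0 : ℤ) : ℝ) * ((γ 1 1 : ℤ) : ℝ) - ((γ 0 1 : ℤ) : ℝ) * ((γ 1 0 : ℤ) : ℝ) = 1 := by
    have := mod_det γ
    exact_mod_cast this
  have e : mob γ τ = (((γ 0 0 : ℤ) : ℂ) * τ + ((γ 0 1 : ℤ) : ℂ)) / jj γ τ := rfl
  rw [← normSq_eq_norm_sq, e, div_im, ← sub_div]
  congr 1
  simp only [jj, add_im, mul_im, intCast_re, intCast_im, add_re, mul_re, zero_mul, add_zero,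
    sub_zero]
  linear_combination τ.im * hd

theorem st_HT : ST_HT := by
  intro γ τ hτ
  have hj := mod_jj_ne γ hτ
  refine ⟨hj, ht_mob γ τ, fun h => ?_⟩
  by_contra hcon
  have hc : γ 1 0 ≠ 0 := hcon
  rw [ht_mob γ τ] at h
  have h1 : (jj γ τ).im = ((γ 1 0 : ℤ) : ℝ) * τ.im := by simp [jj]
  have h2 : τ.im ≤ ‖jj γ τ‖ := by
    have h3 := abs_im_le_norm (jj γ τ)
    rw [h1, abs_mul, abs_of_pos hτ] at h3
    have h4 : (1 : ℝ) ≤ |((γ 1 0 : ℤ) : ℝ)| := by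
      have := Int.one_le_abs hc
      exact_mod_cast this
    nlinarith
  have h5 : 0 < ‖jj γ τ‖ ^ 2 := by
    have := norm_pos_iff.2 hj
    positivity
  have h6 : τ.im * (τ.im / ‖jj γ τ‖ ^ 2) ≤ 1 := by
    rw [← mul_div_assoc, div_le_one h5]
    nlinarith
  linarith

theorem st_FREE : ST_FREE := by
  intro M N hN γ τ hτ hγ hm
  have hj := mod_jj_ne γ hτ
  -- congruences
  have hmap : Matrix.SpecialLinearGroup.map (Int.castRingHom (ZMod N)) γ = 1 := by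
    have := congrArg Prod.fst hγ
    exact this
  have hent : ∀ i j, (((γ i j : ℤ)) : ZMod N) = (1 : Matrix (Fin 2) (Fin 2) (ZMod N)) i j := by
    intro i j
    have h1 : (Matrix.SpecialLinearGroup.map (Int.castRingHom (ZMod N)) γ) i j =
        ((1 : SL(2, ZMod N)) : Matrix (Fin 2) (Fin 2) (ZMod N)) i j := by rw [hmap]
    simpa using h1
  have h00 : (N : ℤ) ∣ γ 0 0 - 1 := by
    rw [← ZMod.intCast_zmod_eq_zero_iff_dvd]
    have := hent 0 0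
    simp only [Matrix.one_apply_eq] at this
    push_cast
    rw [this]; ring
  have h11 : (N : ℤ) ∣ γ 1 1 - 1 := by
    rw [← ZMod.intCast_zmod_eq_zero_iff_dvd]
    have := hent 1 1
    simp only [Matrix.one_apply_eq] at this
    push_cast
    rw [this]; ring
  have hdet := mod_det γ
  have heq : ((γ 0 0 : ℤ) : ℂ) * τ + ((γ 0 1 : ℤ) : ℂ) = τ * jj γ τ := by
    have := greq_num γ hτ
    rw [hm] at this
    exact this.symm
  have hre := congrArg Complex.re heq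
  have him := congrArg Complex.im heq
  simp only [jj, add_im, mul_im, intCast_re, intCast_im, add_re, mul_re, zero_mul, add_zero,
    sub_zero] at hre him
  set a := γ 0 0 with ha
  set b := γ 0 1 with hb
  set c := γ 1 0 with hc
  set d := γ 1 1 with hd
  have hNz : (4 : ℤ) ≤ N := by exact_mod_cast hN
  have hdetR : (a : ℝ) * d - b * c = 1 := by exact_mod_cast hdet
  by_cases hc0 : c = 0
  · -- triangular
    rw [hc0] at hdet him hre
    have had : a * d = 1 := by linarith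
    rcases Int.mul_eq_one_iff_eq_one_or_neg_one.1 had with ⟨e1, e2⟩ | ⟨e1, e2⟩
    · have hb0 : b = 0 := by
        rw [e1, e2] at hre
        have : (b : ℝ) = 0 := by
          push_cast at hre
          linarith
        exact_mod_cast this
      ext i j
      fin_cases i <;> fin_cases j
      · simpa using e1
      · simpa using hb0
      · simpa using hc0
      · simpa using e2
    · exfalso
      rw [e1] at h00
      have := Int.le_of_dvd (by norm_num : (0 : ℤ) < 2) (by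
        have h := (dvd_neg (a := (N : ℤ))).2 h00
        norm_num at h
        exact h)
      linarith
  · exfalso
    have hcR : (c : ℝ) ≠ 0 := by exact_mod_cast hc0
    -- `2 c Re τ = a - d`
    have h1 : 2 * (c : ℝ) * τ.re = a - d := by
      have h2 : τ.im * (2 * (c : ℝ) * τ.re) = τ.im * (a - d) := by linarith
      exact mul_left_cancel₀ hτ.ne' h2
    have h3 : ((a : ℝ) + d) ^ 2 < 4 := by
      have h4 : 4 * (c : ℝ) * (a * τ.re + b) =
          4 * (c : ℝ) * (τ.re * (c * τ.re + d) - τ.im * (c * τ.im)) := by rw [hre]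
      have h5 : 0 < (c : ℝ) ^ 2 * τ.im ^ 2 := by positivity
      have e1 : 4 * (c : ℝ) * (a * τ.re + b) = 2 * a * (2 * c * τ.re) + 4 * b * c := by ring
      have e2 : 4 * (c : ℝ) * (τ.re * (c * τ.re + d) - τ.im * (c * τ.im)) =
          (2 * c * τ.re) ^ 2 + 2 * d * (2 * c * τ.re) - 4 * (c ^ 2 * τ.im ^ 2) := by ring
      rw [e1, e2, h1] at h4
      nlinarith
    have h4 : (a + d) ^ 2 < 4 := by exact_mod_cast h3
    have h5 : (N : ℤ) ∣ a + d - 2 := by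
      have := dvd_add h00 h11
      have e : a - 1 + (d - 1) = a + d - 2 := by ring
      rwa [e] at this
    have h6 : a + d < 2 := by nlinarith
    have h7 : -2 < a + d := by nlinarith
    have h8 := Int.le_of_dvd (by linarith : (0 : ℤ) < -(a + d - 2)) ((dvd_neg).2 h5)
    linarith

end RicP
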