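import Pool.Agent.Helper88.Ric.Stmts

/-!
MP_092777_ag, module MOD: the Eichler integral of `g`.
-/

set_option autoImplicit false

open scoped ContDiff Manifold Topology MatrixGroups
open Complex MeasureTheory Set

noncomputable section

namespace RicP

/-- upper half plane -/
def mod_H : Set ℂ := {τ : ℂ | 0 < τ.im}

theorem mod_H_open : IsOpen mod_H := isOpen_lt continuous_const Complex.continuous_im

theorem mod_H_convex : Convex ℝ mod_H := convex_halfSpace_im_gt 0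

/-- decay condition -/
def mod_Dec (f : ℂ → ℂ) : Prop :=
  ∀ R : ℝ, ∃ C : ℝ, ∀ τ : ℂ, 1 / 2 ≤ τ.im → |τ.re| ≤ R → ‖f τ‖ ≤ C * Real.exp (-τ.im)

/-- the primitive vanishing at `i ∞` -/
def mod_P (f : ℂ → ℂ) (τ : ℂ) : ℂ := -I * ∫ s in Ioi (0 : ℝ), f (τ + (s : ℂ) * I)

theorem mod_im (τ : ℂ) (s : ℝ) : (τ + (s : ℂ) * I).im = τ.im + s := by simp

theorem mod_re (τ : ℂ) (s : ℝ) : (τ + (s : ℂ) * I).re = τ.re := by simp

theorem mod_ball_im {τ₀ τ : ℂ} {r : ℝ} (h : τ ∈ Metric.closedBall τ₀ r) : τ₀.im - r ≤ τ.im := by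
  have h1 : ‖τ - τ₀‖ ≤ r := by simpa [dist_eq_norm] using h
  have h2 := (abs_im_le_norm (τ - τ₀)).trans h1
  rw [sub_im] at h2
  have := (abs_le.1 h2).1
  linarith

theorem mod_ball_re {τ₀ τ : ℂ} {r : ℝ} (h : τ ∈ Metric.closedBall τ₀ r) :
    |τ.re| ≤ |τ₀.re| + r := by
  have h1 : ‖τ - τ₀‖ ≤ r := by simpa [dist_eq_norm] using h
  have h2 := (abs_re_le_norm (τ - τ₀)).trans h1
  rw [sub_re] at h2
  have h3 : τ.re = τ₀.re + (τ.re - τ₀.re) := by ring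
  calc |τ.re| = |τ₀.re + (τ.re - τ₀.re)| := by rw [← h3]
    _ ≤ |τ₀.re| + |τ.re - τ₀.re| := abs_add_le _ _
    _ ≤ _ := by linarith

theorem mod_bound {f : ℂ → ℂ} (hf : DifferentiableOn ℂ f mod_H) (hd : mod_Dec f) {τ₀ : ℂ}
    (hτ : 0 < τ₀.im) : ∃ B : ℝ, 0 ≤ B ∧ ∀ τ ∈ Metric.closedBall τ₀ (τ₀.im / 2), ∀ s : ℝ, 0 ≤ s →
      ‖f (τ + (s : ℂ) * I)‖ ≤ B * Real.exp (-s) := by
  obtain ⟨C, hC⟩ := hd (|τ₀.re| + τ₀.im / 2)
  have hcomp : IsCompact (Metric.closedBall τ₀ (τ₀.im / 2) ×ˢ Icc (0 : ℝ) (1 / 2)) :=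
    (isCompact_closedBall _ _).prod isCompact_Icc
  have hcont : ContinuousOn (fun p : ℂ × ℝ => f (p.1 + (p.2 : ℂ) * I))
      (Metric.closedBall τ₀ (τ₀.im / 2) ×ˢ Icc (0 : ℝ) (1 / 2)) := by
    refine hf.continuousOn.comp (by fun_prop) ?_
    rintro ⟨τ, s⟩ ⟨h1, h2⟩
    have := mod_ball_im h1
    change 0 < (τ + (s : ℂ) * I).im
    rw [mod_im]
    have h3 : 0 ≤ s := h2.1
    simp only at this
    linarith
  obtain ⟨B1, hB1⟩ := hcomp.exists_bound_of_continuousOn hcont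
  refine ⟨max |C| (|B1| * Real.exp (1 / 2)), le_max_of_le_left (abs_nonneg _), ?_⟩
  intro τ hτ' s hs
  have him := mod_ball_im hτ'
  have hpos : 0 < Real.exp (-s) := Real.exp_pos _
  rcases le_or_gt (1 / 2) s with h | h
  · have h1 : 1 / 2 ≤ (τ + (s : ℂ) * I).im := by rw [mod_im]; linarith
    have h2 : |(τ + (s : ℂ) * I).re| ≤ |τ₀.re| + τ₀.im / 2 := by
      rw [mod_re]; exact mod_ball_re hτ'
    calc ‖f (τ + (s : ℂ) * I)‖ ≤ C * Real.exp (-(τ + (s : ℂ) * I).im) := hC _ h1 h2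
      _ ≤ |C| * Real.exp (-(τ + (s : ℂ) * I).im) :=
          mul_le_mul_of_nonneg_right (le_abs_self _) (Real.exp_pos _).le
      _ ≤ |C| * Real.exp (-s) := by
          refine mul_le_mul_of_nonneg_left (Real.exp_le_exp.2 ?_) (abs_nonneg _)
          rw [mod_im]; linarith
      _ ≤ _ := mul_le_mul_of_nonneg_right (le_max_left _ _) hpos.le
  · have h1 := hB1 (τ, s) ⟨hτ', hs, h.le⟩
    calc ‖f (τ + (s : ℂ) * I)‖ ≤ B1 := h1
      _ ≤ |B1| := le_abs_self _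
      _ = (|B1| * Real.exp (1 / 2)) * Real.exp (-(1 / 2)) := by
          rw [mul_assoc, ← Real.exp_add]; simp
      _ ≤ (|B1| * Real.exp (1 / 2)) * Real.exp (-s) := by
          refine mul_le_mul_of_nonneg_left (Real.exp_le_exp.2 (by linarith)) (by positivity)
      _ ≤ _ := mul_le_mul_of_nonneg_right (le_max_right _ _) hpos.le

theorem mod_exp_int : IntegrableOn (fun s : ℝ => Real.exp (-s)) (Ioi 0) := by
  have := exp_neg_integrableOn_Ioi 0 (zero_lt_one)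
  simpa using this

theorem mod_cont {f : ℂ → ℂ} (hf : ContinuousOn f mod_H) {τ : ℂ} (hτ : 0 < τ.im) :
    ContinuousOn (fun s : ℝ => f (τ + (s : ℂ) * I)) (Ici 0) := by
  refine hf.comp (by fun_prop) ?_
  intro s hs
  change 0 < (τ + (s : ℂ) * I).im
  rw [mod_im]
  have : (0 : ℝ) ≤ s := hs
  linarith

theorem mod_int {f : ℂ → ℂ} (hf : ContinuousOn f mod_H) {τ : ℂ} (hτ : 0 < τ.im) {B : ℝ}
    (hB : ∀ s : ℝ, 0 ≤ s → ‖f (τ + (s : ℂ) * I)‖ ≤ B * Real.exp (-s)) :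
    IntegrableOn (fun s : ℝ => f (τ + (s : ℂ) * I)) (Ioi 0) := by
  refine Integrable.mono' (mod_exp_int.const_mul B) ?_ ?_
  · exact ((mod_cont hf hτ).mono Ioi_subset_Ici_self).aestronglyMeasurable measurableSet_Ioi
  · exact ae_restrict_of_forall_mem measurableSet_Ioi fun s hs => hB s (le_of_lt hs)

theorem mod_deriv {f : ℂ → ℂ} (hf : DifferentiableOn ℂ f mod_H) (hd : mod_Dec f) {τ₀ : ℂ}
    (hτ : 0 < τ₀.im) : HasDerivAt (mod_P f) (f τ₀) τ₀ := by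
  obtain ⟨B, hB0, hB⟩ := mod_bound hf hd hτ
  set r : ℝ := τ₀.im / 4 with hr
  have hrpos : 0 < r := by positivity
  have hdf : DifferentiableOn ℂ (deriv f) mod_H := hf.deriv mod_H_open
  have hmem : ∀ τ ∈ Metric.closedBall τ₀ (2 * r), ∀ s : ℝ, 0 ≤ s → τ + (s : ℂ) * I ∈ mod_H := by
    intro τ h s hs
    have := mod_ball_im h
    change 0 < (τ + (s : ℂ) * I).im
    rw [mod_im]
    linarith
  have hself : τ₀ ∈ Metric.closedBall τ₀ (2 * r) := Metric.mem_closedBall_self (by positivity)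
  have h2r : 2 * r = τ₀.im / 2 := by rw [hr]; ring
  -- bound for the derivative
  have hder : ∀ τ ∈ Metric.ball τ₀ r, ∀ s : ℝ, 0 ≤ s →
      ‖deriv f (τ + (s : ℂ) * I)‖ ≤ B * Real.exp (-s) / r := by
    intro τ h s hs
    have hsub : ∀ z ∈ Metric.closedBall (τ + (s : ℂ) * I) r,
        z - (s : ℂ) * I ∈ Metric.closedBall τ₀ (2 * r) := by
      intro z hz
      rw [Metric.mem_closedBall, dist_eq_norm] at hz ⊢
      rw [Metric.mem_ball, dist_eq_norm] at h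
      have : z - (s : ℂ) * I - τ₀ = (z - (τ + (s : ℂ) * I)) + (τ - τ₀) := by ring
      rw [this]
      calc _ ≤ ‖z - (τ + (s : ℂ) * I)‖ + ‖τ - τ₀‖ := norm_add_le _ _
        _ ≤ 2 * r := by linarith
    refine norm_deriv_le_of_forall_mem_sphere_norm_le hrpos ?_ ?_
    · apply DifferentiableOn.diffContOnCl_ball (U := Metric.closedBall (τ + (s : ℂ) * I) r) _
        subset_rfl
      refine hf.mono ?_
      intro z hz
      have := hmem _ (hsub z hz) s hs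
      rwa [sub_add_cancel] at this
    · intro z hz
      have h1 := hsub z (Metric.sphere_subset_closedBall hz)
      have := hB _ (by rw [← h2r]; exact h1) s hs
      rwa [sub_add_cancel] at this
  have hball : ∀ τ ∈ Metric.ball τ₀ r, τ ∈ Metric.closedBall τ₀ (2 * r) := by
    intro τ h
    rw [Metric.mem_closedBall]
    rw [Metric.mem_ball] at h
    linarith
  have key := hasDerivAt_integral_of_dominated_loc_of_deriv_le
    (μ := volume.restrict (Ioi (0 : ℝ))) (F := fun (τ : ℂ) (s : ℝ) => f (τ + (s : ℂ) * I))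
    (F' := fun (τ : ℂ) (s : ℝ) => deriv f (τ + (s : ℂ) * I)) (x₀ := τ₀)
    (bound := fun s => B * Real.exp (-s) / r) (Metric.ball_mem_nhds τ₀ hrpos) ?_ ?_ ?_ ?_ ?_ ?_
  rotate_left
  · filter_upwards [Metric.ball_mem_nhds τ₀ hrpos] with τ hτ'
    have h1 : 0 < τ.im := by
      have := hmem τ (hball τ hτ') 0 le_rfl
      simpa [mod_H] using this
    exact ((mod_cont hf.continuousOn h1).mono Ioi_subset_Ici_self).aestronglyMeasurable
      measurableSet_Ioi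
  · exact mod_int hf.continuousOn hτ fun s hs => hB τ₀ (by rw [← h2r]; exact hself) s hs
  · exact ((mod_cont hdf.continuousOn hτ).mono Ioi_subset_Ici_self).aestronglyMeasurable
      measurableSet_Ioi
  · exact ae_restrict_of_forall_mem measurableSet_Ioi fun s hs τ hτ' => hder τ hτ' s (le_of_lt hs)
  · exact (mod_exp_int.const_mul B).div_const r
  · refine ae_restrict_of_forall_mem measurableSet_Ioi fun s hs τ hτ' => ?_
    have h1 : τ + (s : ℂ) * I ∈ mod_H := hmem τ (hball τ hτ') s (le_of_lt hs)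
    exact (hf.differentiableAt (mod_H_open.mem_nhds h1)).hasDerivAt.comp_add_const _ _
  obtain ⟨hint, hkey⟩ := key
  -- the integral of the derivative
  have hval : (∫ s in Ioi (0 : ℝ), deriv f (τ₀ + (s : ℂ) * I)) = I * f τ₀ := by
    have h1 : ∫ s in Ioi (0 : ℝ), deriv f (τ₀ + (s : ℂ) * I) * I
        = 0 - f (τ₀ + ((0 : ℝ) : ℂ) * I) := by
      refine integral_Ioi_of_hasDerivAt_of_tendsto'
        (f := fun s : ℝ => f (τ₀ + (s : ℂ) * I)) ?_ ?_ ?_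
      · intro s hs
        have h2 : τ₀ + (s : ℂ) * I ∈ mod_H := hmem τ₀ hself s hs
        have h3 : HasDerivAt (fun z : ℂ => τ₀ + z * I) I (s : ℂ) := by
          have := ((hasDerivAt_id (s : ℂ)).mul_const I).const_add τ₀
          simpa using this
        have h4 := ((hf.differentiableAt (mod_H_open.mem_nhds h2)).hasDerivAt).comp (s : ℂ) h3
        exact h4.comp_ofReal
      · exact hint.mul_const I
      · have h5 : Filter.Tendsto (fun s : ℝ => B * Real.exp (-s)) Filter.atTop (𝓝 0) := by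
          have := Real.tendsto_exp_neg_atTop_nhds_zero.const_mul B
          simpa using this
        refine squeeze_zero_norm' ?_ h5
        filter_upwards [Filter.eventually_ge_atTop 0] with s hs
        exact hB τ₀ (by rw [← h2r]; exact hself) s hs
    rw [integral_mul_const] at h1
    have h2 : (∫ s in Ioi (0 : ℝ), deriv f (τ₀ + (s : ℂ) * I)) * I = -f τ₀ := by
      rw [h1]; simp
    calc (∫ s in Ioi (0 : ℝ), deriv f (τ₀ + (s : ℂ) * I))
        = -((∫ s in Ioi (0 : ℝ), deriv f (τ₀ + (s : ℂ) * I)) * I) * I := by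
          rw [neg_mul, mul_assoc, I_mul_I]; ring
      _ = _ := by rw [h2]; ring
  have hfin := hkey.const_mul (-I)
  rw [hval] at hfin
  have h3 : -I * (I * f τ₀) = f τ₀ := by
    rw [← mul_assoc, neg_mul, I_mul_I]; ring
  rw [h3] at hfin
  exact hfin

theorem mod_decay {f : ℂ → ℂ} (hd : mod_Dec f) (R : ℝ) :
    ∃ C : ℝ, ∀ τ : ℂ, 1 / 2 ≤ τ.im → |τ.re| ≤ R → ‖mod_P f τ‖ ≤ C * Real.exp (-τ.im) := by
  obtain ⟨C, hC⟩ := hd R
  refine ⟨C, fun τ h1 h2 => ?_⟩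
  have hpos : 0 < τ.im := by linarith
  have hb : ∀ s : ℝ, 0 ≤ s → ‖f (τ + (s : ℂ) * I)‖ ≤ (C * Real.exp (-τ.im)) * Real.exp (-s) := by
    intro s hs
    have := hC (τ + (s : ℂ) * I) (by rw [mod_im]; linarith) (by rw [mod_re]; exact h2)
    rw [mod_im, neg_add, Real.exp_add, ← mul_assoc] at this
    exact this
  have h3 : ‖mod_P f τ‖ = ‖∫ s in Ioi (0 : ℝ), f (τ + (s : ℂ) * I)‖ := by
    unfold mod_P
    rw [norm_mul, norm_neg, norm_I, one_mul]
  rw [h3]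
  calc ‖∫ s in Ioi (0 : ℝ), f (τ + (s : ℂ) * I)‖
      ≤ ∫ s in Ioi (0 : ℝ), (C * Real.exp (-τ.im)) * Real.exp (-s) := by
        refine norm_integral_le_of_norm_le (mod_exp_int.const_mul _) ?_
        exact ae_restrict_of_forall_mem measurableSet_Ioi fun s hs => hb s (le_of_lt hs)
    _ = _ := by rw [integral_const_mul, integral_exp_neg_Ioi_zero, mul_one]

/-! ### the Möbius action -/

theorem mod_det (γ : SL(2, ℤ)) : γ 0 0 * γ 1 1 - γ 0 1 * γ 1 0 = 1 := by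
  have := γ.det_coe
  rw [Matrix.det_fin_two] at this
  exact this

theorem mod_detC (γ : SL(2, ℤ)) :
    ((γ 0 0 : ℤ) : ℂ) * ((γ 1 1 : ℤ) : ℂ) - ((γ 0 1 : ℤ) : ℂ) * ((γ 1 0 : ℤ) : ℂ) = 1 := by
  have := mod_det γ
  exact_mod_cast this

theorem mod_jj_ne (γ : SL(2, ℤ)) {τ : ℂ} (hτ : 0 < τ.im) : jj γ τ ≠ 0 := by
  intro h
  have h1 : (jj γ τ).im = ((γ 1 0 : ℤ) : ℝ) * τ.im := by
    simp [jj]
  rw [h, zero_im] at h1
  have h2 : ((γ 1 0 : ℤ) : ℝ) = 0 := by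
    rcases mul_eq_zero.1 h1.symm with h3 | h3
    · exact h3
    · linarith
  have h3 : γ 1 0 = 0 := by exact_mod_cast h2
  have h4 : ((γ 1 1 : ℤ) : ℂ) = 0 := by
    unfold jj at h
    rw [h3] at h
    simpa using h
  have h5 : γ 1 1 = 0 := by exact_mod_cast h4
  have := mod_det γ
  rw [h3, h5] at this
  simp at this

theorem mod_mob_im (γ : SL(2, ℤ)) {τ : ℂ} (hτ : 0 < τ.im) : 0 < (mob γ τ).im := by
  have hj := mod_jj_ne γ hτ
  have hpos : 0 < normSq (jj γ τ) := normSq_pos.2 hj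
  have hd : ((γ 0 0 : ℤ) : ℝ) * ((γ 1 1 : ℤ) : ℝ) - ((γ 0 1 : ℤ) : ℝ) * ((γ 1 0 : ℤ) : ℝ) = 1 := by
    have := mod_det γ
    exact_mod_cast this
  have h1 : (mob γ τ).im = τ.im / normSq (jj γ τ) := by
    have e : mob γ τ = (((γ 0 0 : ℤ) : ℂ) * τ + ((γ 0 1 : ℤ) : ℂ)) / jj γ τ := rfl
    rw [e, div_im]
    rw [← sub_div]
    congr 1
    simp only [jj, add_im, mul_im, intCast_re, intCast_im, add_re, mul_re, zero_mul, add_zero,
      sub_zero]
    linear_combination τ.im * hd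
  rw [h1]
  exact div_pos hτ hpos

theorem mod_mob_deriv (γ : SL(2, ℤ)) {τ : ℂ} (hτ : 0 < τ.im) :
    HasDerivAt (mob γ) (1 / jj γ τ ^ 2) τ := by
  have hj := mod_jj_ne γ hτ
  have h1 : HasDerivAt (fun τ : ℂ => ((γ 0 0 : ℤ) : ℂ) * τ + ((γ 0 1 : ℤ) : ℂ))
      ((γ 0 0 : ℤ) : ℂ) τ := by
    have := ((hasDerivAt_id τ).const_mul ((γ 0 0 : ℤ) : ℂ)).add_const ((γ 0 1 : ℤ) : ℂ)
    simpa using this
  have h2 : HasDerivAt (fun τ : ℂ => ((γ 1 0 : ℤ) : ℂ) * τ + ((γ 1 1 : ℤ) : ℂ))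
      ((γ 1 0 : ℤ) : ℂ) τ := by
    have := ((hasDerivAt_id τ).const_mul ((γ 1 0 : ℤ) : ℂ)).add_const ((γ 1 1 : ℤ) : ℂ)
    simpa using this
  have h3 := h1.div h2 hj
  have hd := mod_detC γ
  have h4 : (((γ 0 0 : ℤ) : ℂ) * (((γ 1 0 : ℤ) : ℂ) * τ + ((γ 1 1 : ℤ) : ℂ)) -
      (((γ 0 0 : ℤ) : ℂ) * τ + ((γ 0 1 : ℤ) : ℂ)) * ((γ 1 0 : ℤ) : ℂ)) = 1 := by
    linear_combination hd
  rw [h4] at h3
  exact h3

theorem mod_a (γ : SL(2, ℤ)) {τ : ℂ} (hτ : 0 < τ.im) :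
    ((γ 0 0 : ℤ) : ℂ) - ((γ 1 0 : ℤ) : ℂ) * mob γ τ = 1 / jj γ τ := by
  have hj := mod_jj_ne γ hτ
  have hd := mod_detC γ
  unfold mob
  unfold jj at hj ⊢
  rw [eq_div_iff hj, sub_mul, mul_assoc, div_mul_cancel₀ _ hj]
  linear_combination hd

theorem mod_b (γ : SL(2, ℤ)) {τ : ℂ} (hτ : 0 < τ.im) :
    ((γ 0 1 : ℤ) : ℂ) - ((γ 1 1 : ℤ) : ℂ) * mob γ τ = -τ / jj γ τ := by
  have hj := mod_jj_ne γ hτ
  have hd := mod_detC γ
  unfold mob
  unfold jj at hj ⊢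
  rw [eq_div_iff hj, sub_mul, mul_assoc, div_mul_cancel₀ _ hj]
  linear_combination (-τ) * hd

/-- a function with zero derivative on the upper half plane is constant -/
theorem mod_const {D : ℂ → ℂ} (h : ∀ τ : ℂ, 0 < τ.im → HasDerivAt D 0 τ) {τ τ' : ℂ}
    (hτ : 0 < τ.im) (hτ' : 0 < τ'.im) : D τ = D τ' := by
  refine mod_H_open.is_const_of_deriv_eq_zero mod_H_convex.isPreconnected ?_ ?_ hτ hτ'
  · intro z hz
    exact (h z hz).differentiableAt.differentiableWithinAt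
  · intro z hz
    exact (h z hz).deriv

theorem st_MOD (hCHI : ST_CHI) : ST_MOD := by
  obtain ⟨χ, g, hpow, hT, hg, hmod, C, hC⟩ := hCHI
  have hgd : DifferentiableOn ℂ g mod_H := fun τ hτ => (hg τ hτ).1.differentiableWithinAt
  have hC0 : 0 ≤ C := by
    have h1 := hC I (by norm_num)
    have h2 := (norm_nonneg _).trans h1
    exact nonneg_of_mul_nonneg_left h2 (Real.exp_pos _)
  have hdec1 : mod_Dec g := by
    intro R
    refine ⟨C, fun τ h1 _ => (hC τ h1).trans ?_⟩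
    refine mul_le_mul_of_nonneg_left (Real.exp_le_exp.2 (by linarith)) hC0
  have hgd2 : DifferentiableOn ℂ (fun τ => -(τ * g τ)) mod_H :=
    (differentiableOn_id.mul hgd).neg
  have hdec2 : mod_Dec (fun τ => -(τ * g τ)) := by
    intro R
    refine ⟨(|R| + 2) * C, fun τ h1 h2 => ?_⟩
    have h3 : ‖τ‖ ≤ |R| + τ.im := by
      calc ‖τ‖ ≤ |τ.re| + |τ.im| := norm_le_abs_re_add_abs_im τ
        _ ≤ |R| + τ.im := by
          rw [abs_of_nonneg (by linarith : (0 : ℝ) ≤ τ.im)]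
          linarith [le_abs_self R]
    have h4 : (|R| + τ.im) * Real.exp (-(1 / 2) * τ.im) ≤ |R| + 2 := by
      have e1 : Real.exp (-(1 / 2) * τ.im) ≤ 1 := Real.exp_le_one_iff.2 (by linarith)
      have e2 : τ.im * Real.exp (-(1 / 2) * τ.im) ≤ 2 := by
        have e3 : τ.im / 2 ≤ Real.exp (τ.im / 2) := by
          have := Real.add_one_le_exp (τ.im / 2)
          linarith
        have e4 : Real.exp (-(1 / 2) * τ.im) * Real.exp (τ.im / 2) = 1 := by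
          rw [← Real.exp_add]
          have : -(1 / 2) * τ.im + τ.im / 2 = 0 := by ring
          rw [this, Real.exp_zero]
        have e5 : 0 < Real.exp (-(1 / 2) * τ.im) := Real.exp_pos _
        nlinarith
      nlinarith [abs_nonneg R]
    calc ‖-(τ * g τ)‖ = ‖τ‖ * ‖g τ‖ := by rw [norm_neg, norm_mul]
      _ ≤ (|R| + τ.im) * (C * Real.exp (-(3 / 2) * τ.im)) :=
          mul_le_mul h3 (hC τ h1) (norm_nonneg _) (by
            have := abs_nonneg R; linarith)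
      _ = C * ((|R| + τ.im) * Real.exp (-(1 / 2) * τ.im)) * Real.exp (-τ.im) := by
          have : Real.exp (-(3 / 2) * τ.im)
              = Real.exp (-(1 / 2) * τ.im) * Real.exp (-τ.im) := by
            rw [← Real.exp_add]; congr 1; ring
          rw [this]; ring
      _ ≤ C * (|R| + 2) * Real.exp (-τ.im) :=
          mul_le_mul_of_nonneg_right (mul_le_mul_of_nonneg_left h4 hC0) (Real.exp_pos _).le
      _ = _ := by ring
  set F₁ := mod_P g with hF₁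
  set F₂ := mod_P (fun τ => -(τ * g τ)) with hF₂
  have d1 : ∀ τ : ℂ, 0 < τ.im → HasDerivAt F₁ (g τ) τ := fun τ hτ => mod_deriv hgd hdec1 hτ
  have d2 : ∀ τ : ℂ, 0 < τ.im → HasDerivAt F₂ (-(τ * g τ)) τ :=
    fun τ hτ => mod_deriv hgd2 hdec2 hτ
  -- the derivatives of the periods vanish
  have e1 : ∀ γ : SL(2, ℤ), ∀ τ : ℂ, 0 < τ.im →
      HasDerivAt (fun τ => F₁ (mob γ τ) * ((γ 0 0 : ℤ) : ℂ) + F₂ (mob γ τ) * ((γ 1 0 : ℤ) : ℂ)
        - χ γ * F₁ τ) 0 τ := by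
    intro γ τ hτ
    have hj := mod_jj_ne γ hτ
    have hm := mod_mob_im γ hτ
    have a1 := ((d1 _ hm).comp τ (mod_mob_deriv γ hτ)).mul_const ((γ 0 0 : ℤ) : ℂ)
    have a2 := ((d2 _ hm).comp τ (mod_mob_deriv γ hτ)).mul_const ((γ 1 0 : ℤ) : ℂ)
    have a3 := (d1 τ hτ).const_mul ((χ γ : ℂˣ) : ℂ)
    have a4 := (a1.add a2).sub a3
    have hz : g (mob γ τ) * (1 / jj γ τ ^ 2) * ((γ 0 0 : ℤ) : ℂ) +
        -(mob γ τ * g (mob γ τ)) * (1 / jj γ τ ^ 2) * ((γ 1 0 : ℤ) : ℂ) - χ γ * g τ = 0 := by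
      have h1 := mod_a γ hτ
      have h2 := hmod γ τ hτ
      have h3 : g (mob γ τ) * (1 / jj γ τ ^ 2) * ((γ 0 0 : ℤ) : ℂ) +
        -(mob γ τ * g (mob γ τ)) * (1 / jj γ τ ^ 2) * ((γ 1 0 : ℤ) : ℂ) =
          g (mob γ τ) * (1 / jj γ τ ^ 2) *
            (((γ 0 0 : ℤ) : ℂ) - ((γ 1 0 : ℤ) : ℂ) * mob γ τ) := by ring
      rw [h3, h1, h2]
      field_simp
      ring
    rw [hz] at a4
    exact a4
  have e2 : ∀ γ : SL(2, ℤ), ∀ τ : ℂ, 0 < τ.im →
      HasDerivAt (fun τ => F₁ (mob γ τ) * ((γ 0 1 : ℤ) : ℂ) + F₂ (mob γ τ) * ((γ 1 1 : ℤ) : ℂ)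
        - χ γ * F₂ τ) 0 τ := by
    intro γ τ hτ
    have hj := mod_jj_ne γ hτ
    have hm := mod_mob_im γ hτ
    have a1 := ((d1 _ hm).comp τ (mod_mob_deriv γ hτ)).mul_const ((γ 0 1 : ℤ) : ℂ)
    have a2 := ((d2 _ hm).comp τ (mod_mob_deriv γ hτ)).mul_const ((γ 1 1 : ℤ) : ℂ)
    have a3 := (d2 τ hτ).const_mul ((χ γ : ℂˣ) : ℂ)
    have a4 := (a1.add a2).sub a3
    have hz : g (mob γ τ) * (1 / jj γ τ ^ 2) * ((γ 0 1 : ℤ) : ℂ) +
        -(mob γ τ * g (mob γ τ)) * (1 / jj γ τ ^ 2) * ((γ 1 1 : ℤ) : ℂ)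
          - χ γ * -(τ * g τ) = 0 := by
      have h1 := mod_b γ hτ
      have h2 := hmod γ τ hτ
      have h3 : g (mob γ τ) * (1 / jj γ τ ^ 2) * ((γ 0 1 : ℤ) : ℂ) +
        -(mob γ τ * g (mob γ τ)) * (1 / jj γ τ ^ 2) * ((γ 1 1 : ℤ) : ℂ) =
          g (mob γ τ) * (1 / jj γ τ ^ 2) *
            (((γ 0 1 : ℤ) : ℂ) - ((γ 1 1 : ℤ) : ℂ) * mob γ τ) := by ring
      rw [h3, h1, h2]
      field_simp
      ring
    rw [hz] at a4
    exact a4
  obtain ⟨C1, hC1⟩ := mod_decay hdec1 1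
  obtain ⟨C2, hC2⟩ := mod_decay hdec2 1
  have hI : (0 : ℝ) < (I : ℂ).im := by norm_num
  refine ⟨{ χ := χ, g := g, F₁ := F₁, F₂ := F₂
            V₁ := fun γ => F₁ (mob γ I) * ((γ 0 0 : ℤ) : ℂ) + F₂ (mob γ I) * ((γ 1 0 : ℤ) : ℂ)
              - χ γ * F₁ I
            V₂ := fun γ => F₁ (mob γ I) * ((γ 0 1 : ℤ) : ℂ) + F₂ (mob γ I) * ((γ 1 1 : ℤ) : ℂ)
              - χ γ * F₂ I
            χ_pow := hpow
            χ_T := hT
            g_ne := fun τ hτ => (hg τ hτ).2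
            hF₁ := d1
            hF₂ := d2
            period₁ := ?_
            period₂ := ?_
            decay := ?_ }⟩
  · intro γ τ hτ
    have := mod_const (e1 γ) hτ hI
    linear_combination this
  · intro γ τ hτ
    have := mod_const (e2 γ) hτ hI
    linear_combination this
  · refine ⟨max C1 C2, fun τ h1 h2 => ⟨?_, ?_⟩⟩
    · exact (hC1 τ h1 h2).trans
        (mul_le_mul_of_nonneg_right (le_max_left _ _) (Real.exp_pos _).le)
    · exact (hC2 τ h1 h2).trans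
        (mul_le_mul_of_nonneg_right (le_max_right _ _) (Real.exp_pos _).le)

end RicP
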